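import Mathlib

namespace Pool.Agent.Results.MP_c7f57c_an.NullMultiplicity
open Filter Topology Finset Real MeasureTheory

/-- the Moran set with bases `M` and digit sets `D` (levels indexed from 0) -/
def moran (M : ℕ → ℕ) (D : ℕ → Finset ℕ) : Set ℝ :=
  {x | ∃ d : ℕ → ℕ, (∀ n, d n ∈ D n) ∧ x = ∑' n, (d n : ℝ) / ∏ k ∈ range (n + 1), (M k : ℝ)}

/-- sets of uniqueness -/
def IsUniq (E : Set ℝ) : Prop :=
  ∀ a b : ℕ → ℝ, (∀ x ∈ Set.Icc (0 : ℝ) 1 \ E, Tendsto (fun N => ∑ n ∈ range N,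
    (a n * cos (2 * π * n * x) + b n * sin (2 * π * n * x))) atTop (𝓝 0)) →
  (∀ n, a n = 0) ∧ ∀ n, 1 ≤ n → b n = 0

noncomputable def e (t : ℝ) : ℂ := Complex.exp (Complex.I * (2 * π * t : ℝ))

lemma e_add (s t : ℝ) : e (s + t) = e s * e t := by
  rw [e, e, e, ← Complex.exp_add]; congr 1; push_cast; ring
lemma e_zero : e 0 = 1 := by simp [e]
lemma e_int (n : ℤ) : e n = 1 := by
  rw [e, ← Complex.exp_int_mul_two_pi_mul_I n]; congr 1; push_cast; ring
lemma norm_e (t : ℝ) : ‖e t‖ = 1 := Complex.norm_exp_I_mul_ofReal _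
lemma e_nat (n : ℕ) (t : ℝ) : e (n * t) = e t ^ n := by
  rw [e, e, ← Complex.exp_nat_mul]; congr 1; push_cast; ring
lemma e_sum {ι : Type} (s : Finset ι) (f : ι → ℝ) : e (∑ i ∈ s, f i) = ∏ i ∈ s, e (f i) := by
  simp only [e, mul_sum, Complex.ofReal_sum, Complex.exp_sum]
lemma e_round (t : ℝ) (n : ℤ) : e (t - n) = e t := by
  rw [← mul_one (e (t - n)), ← e_int n, ← e_add, sub_add_cancel]
lemma e_re (t : ℝ) : (e t).re = cos (2 * π * t) := by rw [e, mul_comm, Complex.exp_ofReal_mul_I_re]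
lemma e_im (t : ℝ) : (e t).im = sin (2 * π * t) := by rw [e, mul_comm, Complex.exp_ofReal_mul_I_im]

lemma up (t : ℝ) : ‖e t - 1‖ ≤ 7 * |t| := by
  refine norm_exp_I_mul_ofReal_sub_one_le.trans ?_
  rw [Real.norm_eq_abs, abs_mul, abs_of_pos (by positivity)]
  gcongr; linarith [pi_lt_d2]

lemma lo (t : ℝ) (h : |t| ≤ 1 / 2) : 4 * |t| ≤ ‖e t - 1‖ := by
  have a : |π * t| = π * |t| := by rw [abs_mul, abs_of_pos pi_pos]
  have := mul_abs_le_abs_sin (x := π * t) (by rw [a]; nlinarith [pi_pos])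
  rw [e, Complex.norm_exp_I_mul_ofReal_sub_one, show 2 * π * t / 2 = π * t by ring, norm_mul,
    Real.norm_eq_abs, Real.norm_eq_abs, abs_two]
  rw [a, ← mul_assoc, div_mul_cancel₀ _ pi_pos.ne'] at this
  linarith

def M (k : ℕ) : ℕ := k + 3
def D (k : ℕ) : Finset ℕ := if k = 0 then {1} else range (k + 2)
noncomputable def P (n : ℕ) : ℝ := ∏ k ∈ range n, (M k : ℝ)

lemma P_succ (n : ℕ) : P (n + 1) = P n * (n + 3) := by simp [P, M, prod_range_succ]
lemma P_ge (n : ℕ) : (n : ℝ) + 1 ≤ P n := by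
  induction n with
  | zero => simp [P]
  | succ n ih =>
    have : (0 : ℝ) ≤ n := by positivity
    rw [P_succ]; push_cast; nlinarith
lemma P_pos (n : ℕ) : 0 < P n := lt_of_lt_of_le (by positivity) (P_ge n)
lemma D_ne (k : ℕ) : (D k).Nonempty := by unfold D; split_ifs <;> simp
lemma D_lt {k j : ℕ} (h : j ∈ D k) : j < k + 2 := by
  unfold D at h; split_ifs at h <;> simp at h <;> omega

noncomputable def φ (k : ℕ) (ξ : ℝ) : ℂ := (∑ j ∈ D k, e (ξ * (j / P (k + 1)))) / (D k).card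

lemma φ_le (k : ℕ) (ξ : ℝ) : ‖φ k ξ‖ ≤ 1 := by
  rw [φ, norm_div, Complex.norm_natCast]
  refine div_le_one_of_le₀ ((norm_sum_le _ _).trans ?_) (by positivity)
  simp [norm_e]

lemma geo (k : ℕ) (ξ : ℝ) : ((k : ℝ) + 3) * ‖φ (k + 1) ξ‖ * ‖e (ξ / P (k + 2)) - 1‖ =
    ‖e ((k + 3) * (ξ / P (k + 2))) - 1‖ := by
  have h := geom_sum_mul (e (ξ / P (k + 2))) (k + 3)
  rw [← e_nat] at h
  push_cast at h
  have : ∀ j : ℕ, e (ξ * (j / P (k + 1 + 1))) = e (ξ / P (k + 2)) ^ j := fun j => by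
    rw [← e_nat]; congr 1; ring
  rw [← h, norm_mul, φ, norm_div, Complex.norm_natCast]
  simp only [this, D, if_neg (Nat.succ_ne_zero k), card_range]
  congr 1
  push_cast
  rw [show k + 1 + 2 = k + 3 by ring]
  field_simp
  ring

lemma pair (k : ℕ) (ξ : ℝ) (h1 : P (k + 2) / 2 ≤ |ξ|) (h2 : |ξ| < P (k + 3) / 2) :
    ‖φ (k + 1) ξ‖ * ‖φ (k + 2) ξ‖ * (k + 3) ≤ 4 := by
  have g1 := geo k ξ
  have g2 := geo (k + 1) ξ
  have p2 := P_pos (k + 2)
  have p3 := P_pos (k + 3)
  have k0 : (0 : ℝ) ≤ k := by positivity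
  have e3 : P (k + 3) = P (k + 2) * (k + 5) := by rw [P_succ]; push_cast; ring
  set c := ξ / P (k + 2) with hc
  set θ := ξ / P (k + 3) with hθ
  have cθ : c = (k + 5) * θ := by rw [hc, hθ, e3]; field_simp
  have c1 : 1 / 2 ≤ |c| := by rw [hc, abs_div, abs_of_pos p2, le_div_iff₀ p2]; linarith
  have t1 : |θ| ≤ 1 / 2 := by rw [hθ, abs_div, abs_of_pos p3, div_le_iff₀ p3]; linarith
  have a1 := lo _ (abs_sub_round c)
  rw [e_round] at a1
  have a2 := lo _ t1
  have a3 : ‖e ((k + 3) * c) - 1‖ ≤ 2 := (norm_sub_le _ _).trans (by rw [norm_e]; norm_num)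
  have a4 : ‖e (((k + 1 : ℕ) + 3) * θ) - 1‖ ≤ 7 * (|c - round c| + |θ|) := by
    rw [← e_round _ (round c)]
    refine (up _).trans ?_
    gcongr
    rw [show ((k + 1 : ℕ) + 3) * θ - round c = (c - round c) - θ by rw [cθ]; push_cast; ring]
    exact abs_sub _ _
  rw [← g1] at a3
  rw [← g2] at a4
  rw [cθ, abs_mul, abs_of_pos (by positivity)] at c1
  push_cast at a4
  set δ := |c - round c|
  have u1 := φ_le (k + 1) ξ
  have u0 := norm_nonneg (φ (k + 1) ξ)
  have v0 := norm_nonneg (φ (k + 2) ξ)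
  set u := ‖φ (k + 1) ξ‖
  set v := ‖φ (k + 2) ξ‖
  have t0 := abs_nonneg θ
  set t := |θ|
  have b1 : (k + 3) * u * (4 * δ) ≤ 2 := le_trans (by gcongr) a3
  have b2 : (k + 1 + 3) * v * (4 * t) ≤ 7 * (δ + t) := le_trans (by gcongr) a4
  have W : 2 / 5 ≤ (k + 4) * t := by nlinarith
  have b3 : (k + 3) * u * ((k + 1 + 3) * v * (4 * t)) ≤ (k + 3) * u * (7 * (δ + t)) := by gcongr
  have b4 : (k + 3) * u * t ≤ (k + 4) * 1 * t := by gcongr; norm_num
  refine le_of_mul_le_mul_right ?_ (show 0 < (k + 4) * t by linarith)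
  nlinarith

def T (L : ℕ) : Finset (Fin L → ℕ) := Fintype.piFinset fun k => D k
noncomputable def s {L : ℕ} (d : Fin L → ℕ) : ℝ := ∑ k : Fin L, d k / P (k + 1)
noncomputable def A (L : ℕ) : (ℝ → ℂ) →ₗ[ℂ] ℂ :=
  ((T L).card : ℂ)⁻¹ • ∑ d ∈ T L, LinearMap.proj (s d)

lemma A_app (L : ℕ) (g : ℝ → ℂ) : A L g = (∑ d ∈ T L, g (s d)) / (T L).card := by
  simp [A, div_eq_inv_mul]

lemma T_pos (L : ℕ) : 0 < (T L).card :=
  card_pos.2 (Fintype.piFinset_nonempty.2 fun _ => D_ne _)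

lemma A_le (L : ℕ) (g : ℝ → ℂ) (c : ℝ) (h : ∀ d ∈ T L, ‖g (s d)‖ ≤ c) : ‖A L g‖ ≤ c := by
  rw [A_app, norm_div, Complex.norm_natCast, div_le_iff₀ (by exact_mod_cast T_pos L)]
  refine (norm_sum_le _ _).trans ((sum_le_card_nsmul _ _ _ h).trans ?_)
  rw [nsmul_eq_mul, mul_comm]

lemma A_re (L : ℕ) (g : ℝ → ℂ) (c : ℝ) (h : ∀ d ∈ T L, (g (s d)).re = c) : (A L g).re = c := by
  have : (0 : ℝ) < (T L).card := by exact_mod_cast T_pos L
  rw [A_app, Complex.div_natCast_re, Complex.re_sum, sum_congr rfl h, sum_const, nsmul_eq_mul]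
  field_simp

lemma A_e (L : ℕ) (ξ : ℝ) : A L (fun t => e (ξ * t)) = ∏ k ∈ range L, φ k ξ := by
  rw [A_app, ← Fin.prod_univ_eq_prod_range (fun k => φ k ξ)]
  simp only [φ, prod_div_distrib, prod_univ_sum, T, Fintype.card_piFinset, s, mul_sum, e_sum]
  push_cast; rfl

lemma decay (ε : ℝ) (hε : 0 < ε) :
    ∃ R, ∀ ξ, R ≤ |ξ| → ∀ᶠ L in atTop, ‖A L fun t => e (ξ * t)‖ ≤ ε := by
  obtain ⟨k0, hk⟩ := exists_nat_ge (4 / ε)
  refine ⟨P (k0 + 2) / 2, fun ξ hξ => ?_⟩
  obtain ⟨j, h1, h2⟩ : ∃ j, P (k0 + j + 2) / 2 ≤ |ξ| ∧ |ξ| < P (k0 + j + 3) / 2 := by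
    by_contra hn
    push Not at hn
    have : ∀ j, P (k0 + j + 2) / 2 ≤ |ξ| := fun j => by
      induction j with
      | zero => exact hξ
      | succ j ih => exact hn j ih
    obtain ⟨j, hj⟩ := exists_nat_gt (2 * |ξ|)
    have a := P_ge (k0 + j + 2)
    have : (0 : ℝ) ≤ k0 := by positivity
    push_cast at a
    linarith [this, ‹∀ j, P (k0 + j + 2) / 2 ≤ |ξ|› j]
  have p := pair _ ξ h1 h2
  filter_upwards [eventually_ge_atTop (k0 + j + 3)] with L hL
  have sub : ({k0 + j + 1, k0 + j + 2} : Finset ℕ) ⊆ range L := by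
    intro i; simp; omega
  rw [A_e, ← prod_sdiff sub, prod_pair (by omega), norm_mul, norm_mul, norm_prod]
  refine (mul_le_of_le_one_left (by positivity)
    (prod_le_one (fun _ _ => norm_nonneg _) fun _ _ => φ_le _ _)).trans ?_
  rw [div_le_iff₀ hε] at hk
  have : (0 : ℝ) ≤ j := by positivity
  refine le_of_mul_le_mul_right (p.trans ?_) (by positivity)
  push_cast; nlinarith

def Q (F : C(AddCircle (1 : ℝ), ℂ)) : Prop :=
  ∀ ε > 0, ∀ᶠ N : ℕ in atTop, ∀ᶠ L in atTop, ‖A L fun t => e (-N * t) * F t‖ ≤ ε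

lemma fourier_e (n : ℤ) (t : ℝ) : fourier n (t : AddCircle (1 : ℝ)) = e (n * t) := by
  rw [fourier_coe_apply, e]; congr 1; push_cast; ring

lemma allQ (F : C(AddCircle (1 : ℝ), ℂ)) : Q F := by
  have sp : ∀ p ∈ Submodule.span ℂ (Set.range (@fourier 1)), Q p := by
    intro p hp
    induction hp using Submodule.span_induction with
    | mem p hp =>
      obtain ⟨n, rfl⟩ := hp
      intro ε hε
      obtain ⟨R, hR⟩ := decay ε hε
      filter_upwards [tendsto_natCast_atTop_atTop.eventually_ge_atTop (R + n)] with N hN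
      simp only [fourier_e, ← e_add, ← add_mul]
      exact hR _ (le_trans (by linarith) (neg_le_abs _))
    | zero =>
      exact fun ε hε => .of_forall fun N => .of_forall fun L =>
        A_le _ _ _ fun _ _ => by simp [hε.le]
    | add p q _ _ hp hq =>
      intro ε hε
      filter_upwards [hp _ (half_pos hε), hq _ (half_pos hε)] with N h1 h2
      filter_upwards [h1, h2] with L h1 h2
      rw [show (fun t : ℝ => e (-N * t) * (p + q) t) = (fun t : ℝ => e (-N * t) * p t) +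
        fun t : ℝ => e (-N * t) * q t by funext t; simp [mul_add], map_add]
      linarith [norm_add_le (A L fun t : ℝ => e (-N * t) * p t) (A L fun t : ℝ => e (-N * t) * q t)]
    | smul c p _ hp =>
      intro ε hε
      filter_upwards [hp (ε / (‖c‖ + 1)) (by positivity)] with N h1
      filter_upwards [h1] with L h1
      rw [show (fun t : ℝ => e (-N * t) * (c • p) t) = c • fun t : ℝ => e (-N * t) * p t by
        funext t; simp; ring, map_smul, norm_smul]
      rw [le_div_iff₀ (by positivity)] at h1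
      nlinarith [norm_nonneg (A L fun t : ℝ => e (-N * t) * p t)]
  intro ε hε
  have : F ∈ closure (Submodule.span ℂ (Set.range (@fourier 1)) : Set _) := by
    rw [← Submodule.topologicalClosure_coe, span_fourier_closure_eq_top]; trivial
  obtain ⟨p, hp, hd⟩ := Metric.mem_closure_iff.1 this _ (half_pos hε)
  filter_upwards [sp p hp _ (half_pos hε)] with N h1
  filter_upwards [h1] with L h1
  have h2 := A_le L (fun t : ℝ => e (-N * t) * (F - p) t) (ε / 2) fun d _ => by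
    rw [norm_mul, norm_e, one_mul]
    exact ((F - p).norm_coe_le_norm _).trans (dist_eq_norm F p ▸ hd.le)
  rw [show (fun t : ℝ => e (-N * t) * F t) = (fun t : ℝ => e (-N * t) * p t) +
    fun t : ℝ => e (-N * t) * (F - p) t by funext t; simp [mul_sub], map_add]
  linarith [norm_add_le (A L fun t : ℝ => e (-N * t) * p t)
    (A L fun t : ℝ => e (-N * t) * (F - p) t)]

lemma tel (L : ℕ) : HasSum (fun k => ((k + L : ℕ) + 2 : ℝ) / P (k + L + 1)) (1 / P L) := by
  have h : ∀ k, ((k + L : ℕ) + 2 : ℝ) / P (k + L + 1) = 1 / P (k + L) - 1 / P (k + 1 + L) := by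
    intro k
    have := P_pos (k + L)
    rw [add_right_comm k 1 L, P_succ]; field_simp; ring
  refine (hasSum_iff_tendsto_nat_of_nonneg (fun k => div_nonneg (by positivity) (P_pos _).le) _).2 ?_
  simp only [h, sum_range_sub' fun k => 1 / P (k + L), zero_add]
  have : Tendsto (fun n : ℕ => P (n + L)) atTop atTop :=
    tendsto_atTop_mono (fun n => le_trans (by push_cast; linarith [Nat.cast_nonneg (α := ℝ) L])
      (P_ge _)) tendsto_natCast_atTop_atTop
  simpa using (this.inv_tendsto_atTop).const_sub (P L)⁻¹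

lemma bd {d : ℕ → ℕ} (hd : ∀ n, d n ∈ D n) (k : ℕ) :
    0 ≤ (d k : ℝ) / P (k + 1) ∧ (d k : ℝ) / P (k + 1) ≤ (k + 2) / P (k + 1) :=
  ⟨div_nonneg (by positivity) (P_pos _).le,
    div_le_div_of_nonneg_right (by exact_mod_cast (D_lt (hd k)).le) (P_pos _).le⟩

lemma cover (L : ℕ) (x : ℝ) (hx : x ∈ moran M D) : ∃ d ∈ T L, x ∈ Set.Icc (s d) (s d + 1 / P L) := by
  obtain ⟨d, hd, rfl⟩ := hx
  have su : Summable fun k => (d k : ℝ) / P (k + 1) :=
    Summable.of_nonneg_of_le (fun k => (bd hd k).1) (fun k => (bd hd k).2)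
      (by simpa using (tel 0).summable)
  refine ⟨fun k => d k, Fintype.mem_piFinset.2 fun k => hd k, ?_⟩
  change ∑' n, (d n : ℝ) / P (n + 1) ∈ _
  rw [← su.sum_add_tsum_nat_add L, s, Fin.sum_univ_eq_sum_range fun k => (d k : ℝ) / P (k + 1)]
  refine ⟨le_add_of_nonneg_right (tsum_nonneg fun k => (bd hd _).1), ?_⟩
  gcongr
  exact hasSum_le (fun k => (bd hd _).2) ((summable_nat_add_iff L).2 su).hasSum (tel L)

lemma s_mem (L : ℕ) (d : Fin (L + 1) → ℕ) (hd : d ∈ T (L + 1)) : s d ∈ moran M D := by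
  refine ⟨fun k => if h : k < L + 1 then d ⟨k, h⟩ else 0, fun k => ?_, ?_⟩
  · beta_reduce
    split_ifs with h
    · exact Fintype.mem_piFinset.1 hd ⟨k, h⟩
    · simp [D, show k ≠ 0 by omega]
  · rw [tsum_eq_sum (s := range (L + 1)) fun k hk => by simp [mem_range.not.1 hk], s, sum_range]
    exact sum_congr rfl fun k _ => by simp only [P, dif_pos k.2]

lemma compact : IsCompact (moran M D) := by
  have : moran M D = (fun d : ℕ → ℕ => ∑' n, (d n : ℝ) / P (n + 1)) ''
      Set.pi Set.univ fun n => (D n : Set ℕ) := by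
    ext x
    exact ⟨fun ⟨d, h, e⟩ => ⟨d, fun n _ => h n, e.symm⟩, fun ⟨d, h, e⟩ =>
      ⟨d, fun n => h n trivial, e.symm⟩⟩
  rw [this]
  refine (isCompact_univ_pi fun n => (D n).finite_toSet.isCompact).image_of_continuousOn
    (continuousOn_tsum (u := fun k => (k + 2) / P (k + 1)) (fun k =>
      ((continuous_of_discreteTopology.comp (continuous_apply k)).div_const _).continuousOn)
      (by simpa using (tel 0).summable) fun k d hd => ?_)
  have := bd (fun n => hd n trivial) k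
  rw [Real.norm_eq_abs, abs_of_nonneg this.1]; exact this.2

lemma null : volume (moran M D) = 0 := by
  have cd : ∀ L : ℕ, ((T (L + 1)).card : ℝ) * (L + 3) = P (L + 1) := fun L => by
    rw [T, Fintype.card_piFinset, Fin.prod_univ_eq_prod_range fun k => (D k).card]
    induction L with
    | zero => simp [D, P, M]
    | succ L ih =>
      rw [prod_range_succ, P_succ, ← ih, show (D (L + 1)).card = L + 3 by simp [D]]
      push_cast; ring
  have : ∀ L : ℕ, volume (moran M D) ≤ ENNReal.ofReal (1 / (L + 1)) := fun L => by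
    refine (measure_mono (t := ⋃ d ∈ T (L + 1), Set.Icc (s d) (s d + 1 / P (L + 1)))
      fun x hx => let ⟨d, a, b⟩ := cover (L + 1) x hx; Set.mem_biUnion a b).trans ((measure_biUnion_finset_le _ _).trans ?_)
    simp only [Real.volume_Icc, add_sub_cancel_left, sum_const, nsmul_eq_mul]
    rw [← ENNReal.ofReal_natCast, ← ENNReal.ofReal_mul (by positivity)]
    refine ENNReal.ofReal_le_ofReal ?_
    rw [mul_one_div, div_le_div_iff₀ (P_pos _) (by positivity), ← cd]
    have : (0 : ℝ) ≤ (T (L + 1)).card := by positivity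
    nlinarith
  have l := ENNReal.tendsto_ofReal (tendsto_one_div_add_atTop_nhds_zero_nat (𝕜 := ℝ))
  rw [ENNReal.ofReal_zero] at l
  exact le_antisymm (ge_of_tendsto' l this) zero_le

lemma sep (x : ℝ) (hx : x ∈ Set.Icc (0 : ℝ) 1 \ moran M D) :
    ∃ δ > 0, ∀ t ∈ moran M D, δ ≤ ‖e (x - t) - 1‖ := by
  refine compact.exists_forall_le' (Continuous.continuousOn (by unfold e; fun_prop)) fun t ht => ?_
  obtain ⟨d, hd, h1, h2⟩ := cover 1 t ht
  have : d 0 = 1 := by simpa [D] using Fintype.mem_piFinset.1 hd 0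
  simp only [s, Fin.sum_univ_one, this, P, M] at h1 h2
  norm_num at h1 h2
  have a := lo _ (abs_sub_round (x - t))
  rw [e_round] at a
  refine lt_of_lt_of_le (mul_pos four_pos (abs_pos.2 fun z => hx.2 ?_)) a
  have z' := sub_eq_zero.1 z
  have b1 : ((-1 : ℤ) : ℝ) < round (x - t) := by rw [← z']; push_cast; linarith [hx.1.1]
  have b2 : (round (x - t) : ℝ) < (1 : ℤ) := by rw [← z']; push_cast; linarith [hx.1.2]
  have : round (x - t) = 0 := by
    have := Int.cast_lt.1 b1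
    have := Int.cast_lt.1 b2
    omega
  rw [this, Int.cast_zero, sub_eq_zero] at z'
  rwa [z']

theorem result : ∃ (M : ℕ → ℕ) (D : ℕ → Finset ℕ), (∀ n, 2 ≤ M n) ∧
    (∀ n, (D n).Nonempty ∧ D n ⊆ range (M n)) ∧ volume (moran M D) = 0 ∧ ¬ IsUniq (moran M D) := by
  refine ⟨M, D, fun n => by simp [M], fun n => ⟨D_ne n, fun j hj => mem_range.2
    ((D_lt hj).trans (by simp [M]))⟩, null, fun h => ?_⟩
  set U := hyperfilter ℕ
  have hU : (U : Filter ℕ) ≤ atTop := Nat.hyperfilter_le_atTop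
  have ex : ∀ n : ℕ, ∃ c, Tendsto (fun L => A L fun t => e (-n * t)) U (𝓝 c) := fun n => by
    obtain ⟨c, -, hc⟩ := (isCompact_closedBall (0 : ℂ) 1).ultrafilter_le_nhds
      (U.map fun L => A L fun t => e (-n * t)) (by
        rw [le_principal_iff, Ultrafilter.coe_map, Filter.mem_map]
        exact Eventually.of_forall fun L => mem_closedBall_zero_iff.2
          (A_le _ _ _ fun _ _ => (norm_e _).le))
    exact ⟨c, hc⟩
  choose c hc using ex
  have c0 : (c 0).re = 1 := tendsto_nhds_unique ((Complex.continuous_re.tendsto _).comp (hc 0))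
    (tendsto_const_nhds.congr fun L => (A_re L _ 1 fun d _ => by simp [e_zero]).symm)
  have := (h (fun n => (c n).re - if n = 0 then 1 / 2 else 0) (fun n => -(c n).im) ?_).1 0
  · norm_num [c0] at this
  intro x hx
  obtain ⟨δ, δ0, hδ⟩ := sep x hx
  set F : C(AddCircle (1 : ℝ), ℂ) := ⟨fun u => (starRingEnd ℂ) (e x * fourier (-1) u - 1) /
    (max (‖e x * fourier (-1) u - 1‖) δ ^ 2 : ℝ), Continuous.div (by fun_prop) (by fun_prop)
      fun u => Complex.ofReal_ne_zero.2 (pow_pos (lt_max_of_lt_right δ0) 2).ne'⟩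
  have hF : ∀ t ∈ moran M D, e (x - t) - 1 ≠ 0 ∧ F t = (e (x - t) - 1)⁻¹ := fun t ht => by
    have n0 : e (x - t) - 1 ≠ 0 := norm_pos_iff.1 (δ0.trans_le (hδ t ht))
    refine ⟨n0, ?_⟩
    change (starRingEnd ℂ) (e x * fourier (-1) (t : AddCircle (1 : ℝ)) - 1) /
      (max (‖e x * fourier (-1) (t : AddCircle (1 : ℝ)) - 1‖) δ ^ 2 : ℝ) = _
    rw [fourier_e, ← e_add, show x + (-1 : ℤ) * t = x - t by push_cast; ring,
      max_eq_left (hδ t ht), Complex.inv_def, Complex.normSq_eq_norm_sq, div_eq_mul_inv,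
      Complex.ofReal_inv]
  refine Metric.tendsto_nhds.2 fun ε hε => ?_
  filter_upwards [allQ F _ (half_pos hε), eventually_ge_atTop 1] with N hN N1
  have t1 : Tendsto (fun L => (∑ n ∈ range N, e (n * x) * A L fun t => e (-n * t)).re - 1 / 2) U
      (𝓝 ((∑ n ∈ range N, e (n * x) * c n).re - 1 / 2)) :=
    ((Complex.continuous_re.tendsto _).comp
      (tendsto_finset_sum _ fun n _ => (hc n).const_mul _)).sub_const _
  have e1 : ∑ n ∈ range N, (((c n).re - if n = 0 then 1 / 2 else 0) * cos (2 * π * n * x) +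
      -(c n).im * sin (2 * π * n * x)) = (∑ n ∈ range N, e (n * x) * c n).re - 1 / 2 := by
    have : ∑ n ∈ range N, (if n = 0 then 1 / 2 else 0) * cos (2 * π * n * x) = 1 / 2 := by
      rw [sum_eq_single 0 (fun n _ h => by simp [h]) fun h => by simp at h; omega]; simp
    refine Eq.trans ?_ (congrArg _ this)
    rw [Complex.re_sum, ← sum_sub_distrib]
    refine sum_congr rfl fun n _ => ?_
    rw [Complex.mul_re, e_re, e_im, ← mul_assoc]; ring
  rw [e1, dist_zero_right]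
  refine lt_of_le_of_lt (le_of_tendsto t1.norm (hU ?_)) (half_lt_self hε)
  filter_upwards [hN, eventually_ge_atTop 1] with L hL L1
  obtain ⟨L, rfl⟩ : ∃ L', L = L' + 1 := ⟨L - 1, by omega⟩
  have e2 := A_re (L + 1) ((∑ n ∈ range N, e (n * x) • fun t => e (-n * t)) -
      e (N * x) • fun t => e (-N * t) * F t) (1 / 2) fun d hd => by
    obtain ⟨n0, f0⟩ := hF _ (s_mem L d hd)
    have p : ∀ n : ℕ, e (n * x) * e (-n * s d) = e (x - s d) ^ n := fun n => by
      rw [← e_add, ← e_nat]; congr 1; ring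
    simp only [Pi.sub_apply, Finset.sum_apply, Pi.smul_apply, smul_eq_mul, ← mul_assoc, p, f0]
    have nz := norm_e (x - s d)
    set z := e (x - s d)
    rw [geom_sum_eq (sub_ne_zero.1 n0), show (z ^ N - 1) / (z - 1) - z ^ N * (z - 1)⁻¹ =
      -(z - 1)⁻¹ by field_simp; ring, Complex.neg_re, Complex.inv_re]
    have q : z.re * z.re + z.im * z.im = 1 := by
      rw [← Complex.normSq_apply, Complex.normSq_eq_norm_sq, nz]; norm_num
    have q2 := Complex.normSq_pos.2 n0
    rw [← neg_div, div_eq_iff q2.ne', Complex.normSq_apply]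
    simp only [Complex.sub_re, Complex.sub_im, Complex.one_re, Complex.one_im]
    linarith
  simp only [map_sub, map_sum, map_smul, smul_eq_mul, Complex.sub_re] at e2
  rw [(show ∀ a b : ℝ, a - b = 1 / 2 → a - 1 / 2 = b from fun a b h => by linarith) _ _ e2,
    Real.norm_eq_abs]
  refine (Complex.abs_re_le_norm _).trans ?_
  rwa [norm_mul, norm_e, one_mul]

end Pool.Agent.Results.MP_c7f57c_an.NullMultiplicity
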